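import Pool.Agent.H27.TM.TargetsG

/-!
MP_52e316_nt, board tm12_modules, row OC: the sums over the differences of a given size.
-/

set_option autoImplicit false

namespace Pool.Agent.H91.TMB.OC

open Pool.Agent.H27.TM

theorem pf_OC (hP1 : M_P1) (hP2 : M_P2) : M_OC := by
  intro n ε q Ψ hn hε hq hΨ
  obtain ⟨N, hN, h2⟩ := hP2 n ε hn hε
  obtain ⟨C₁, C, hC₁, hC, h1⟩ := hP1 n q Ψ N hn hq hΨ hN
  obtain ⟨C₂, hC₂, h3⟩ := h2 C₁ hC₁
  refine ⟨C * C₂, mul_nonneg hC hC₂, ?_⟩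
  intro K _ _ hK L y ω r G α τ ι I c D hL hω hG hcls hcc hS hD hDD
  refine (h1 K hK L y ω r G α ι I c _ hL hω
    (fun v => ⟨(hG v).1, (hG v).2.1, (hG v).2.2.1, (hG v).2.2.2.1⟩)
    (fun i hi v => (hcls i hi).real v)
    (fun Q b hQ hb => h3 K hK L y ω G α τ ι I c D Q b hL hω hG hcls hcc hS hD hDD hQ hb)).trans
      (le_of_eq ?_)
  ring

end Pool.Agent.H91.TMB.OC
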